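import Pool.Agent.J4H58.OC.Stm2
import Pool.Agent.J4H47.OC.Q

/-!
# From the Poincaré inequality of a log-concave law to the weighted inequality (project OC, job ONE)
-/

set_option autoImplicit false

namespace Pool.Agent.J4H64.OC

open MeasureTheory Set Filter Topology ProbabilityTheory
open Pool.Agent.J4H58.OC Pool.Agent.J4H47.OC
open scoped ENNReal

variable {w : ℝ → ℝ}

theorem bdw (h : LD w) : ∃ W : ℝ, 0 < W ∧ ∀ s, w s ≤ W := by
  have hx : (1 / 2 : ℝ) ∈ Ioo (0 : ℝ) 1 := by constructor <;> norm_num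
  refine ⟨4 * w (qt w (1 / 2)), by have := (qt_good h hx).1; linarith, fun s => ?_⟩
  have := qt_hazard h s hx
  linarith

theorem qt_aem (h : LD w) : AEMeasurable (qt w) (volume.restrict (Ioo (0 : ℝ) 1)) :=
  aemeasurable_restrict_of_monotoneOn measurableSet_Ioo (qt_strict h).monotoneOn

theorem nu_prob (h : LD w) : IsProbabilityMeasure (nu w) := by
  rw [← qt_map h]
  have : IsProbabilityMeasure (volume.restrict (Ioo (0 : ℝ) 1)) := ⟨by simp⟩
  exact Measure.isProbabilityMeasure_map (qt_aem h)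

theorem nu_int (h : LD w) {g : ℝ → ℝ} (hg : AEStronglyMeasurable g (nu w)) :
    ∫ x, g x ∂(nu w) = ∫ x in Ioo (0 : ℝ) 1, g (qt w x) := by
  rw [← qt_map h] at hg ⊢
  exact integral_map (qt_aem h) hg

theorem nu_dens (h : LD w) (g : ℝ → ℝ) : ∫ x, g x ∂(nu w) = ∫ x, w x * g x := by
  unfold nu
  rw [integral_withDensity_eq_integral_toReal_smul₀]
  · refine integral_congr_ae (Eventually.of_forall fun x => ?_)
    simp only [smul_eq_mul]
    rw [ENNReal.toReal_ofReal (h.nonneg x)]
  · exact h.int.aestronglyMeasurable.aemeasurable.ennreal_ofReal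
  · exact Eventually.of_forall fun x => ENNReal.ofReal_lt_top

theorem nu_ac : nu w ≪ volume := withDensity_absolutelyContinuous _ _

/-- change of variables -/
theorem cov (h : LD w) {ψ : ℝ → ℝ} (hψ : Measurable ψ) (t : ℝ) :
    ∫ s in Iic t, w s * ψ (Fc w s) = ∫ x in (0 : ℝ)..(Fc w t), ψ x := by
  have hm : AEStronglyMeasurable ((Iic t).indicator fun s => ψ (Fc w s)) (nu w) :=
    ((hψ.comp (fc_cont h).measurable).indicator measurableSet_Iic).aestronglyMeasurable
  have h1 : ∫ s in Iic t, w s * ψ (Fc w s) =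
      ∫ s, (Iic t).indicator (fun s => ψ (Fc w s)) s ∂(nu w) := by
    rw [nu_dens h, ← integral_indicator measurableSet_Iic]
    congr 1
    ext s
    by_cases hs : s ∈ Iic t
    · simp [hs]
    · simp [hs]
  rw [h1, nu_int h hm]
  have h2 : ∫ x in Ioo (0 : ℝ) 1, (Iic t).indicator (fun s => ψ (Fc w s)) (qt w x) =
      ∫ x in Ioo (0 : ℝ) 1, (Ioc 0 (Fc w t)).indicator ψ x := by
    refine setIntegral_congr_fun measurableSet_Ioo fun x hx => ?_
    have h3 : qt w x ∈ Iic t ↔ x ∈ Ioc 0 (Fc w t) := by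
      constructor
      · intro hq
        refine ⟨hx.1, ?_⟩
        have := fc_mono h hq
        rwa [fc_qt h hx] at this
      · intro hq
        by_contra hn
        exact absurd (fc_lt h hx (not_le.1 hn)) (not_lt.2 hq.2)
    by_cases hs : qt w x ∈ Iic t
    · have h4 := h3.1 hs
      simp only [indicator_of_mem hs, indicator_of_mem h4, fc_qt h hx]
    · have h4 : x ∉ Ioc 0 (Fc w t) := fun h5 => hs (h3.2 h5)
      simp only [indicator_of_notMem hs, indicator_of_notMem h4]
  rw [h2, ← integral_Ioc_eq_integral_Ioo, setIntegral_indicator measurableSet_Ioc,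
    intervalIntegral.integral_of_le (fc_nonneg h t)]
  congr 2
  rw [inter_eq_right]
  exact Ioc_subset_Ioc_right (fc_le_one h t)

/-- the Poincaré inequality in terms of integrals -/
theorem pi_int (h : LD w) {K : ℝ} (hK : 0 < K) (hPI : PI1 (nu w) K) {φ g : ℝ → ℝ}
    (hd : ∀ t, HasDerivAt φ (g t) t) (hg : Continuous g) {M M' : ℝ} (hM : ∀ t, |φ t| ≤ M)
    (hM' : ∀ t, |g t| ≤ M') :
    ∫ t, φ t ^ 2 ∂(nu w) - (∫ t, φ t ∂(nu w)) ^ 2 ≤ K * ∫ t, g t ^ 2 ∂(nu w) := by
  have := nu_prob h
  have hder : deriv φ = g := funext fun t => (hd t).deriv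
  have hφ : ContDiff ℝ 1 φ := by
    rw [contDiff_one_iff_deriv]
    exact ⟨fun t => (hd t).differentiableAt, by rw [hder]; exact hg⟩
  have h2 : MemLp φ 2 (nu w) := by
    refine MemLp.of_bound hφ.continuous.aestronglyMeasurable M (Eventually.of_forall fun t => ?_)
    rw [Real.norm_eq_abs]
    exact hM t
  have hgi : Integrable (fun t => g t ^ 2) (nu w) := by
    refine Integrable.of_bound (by fun_prop) (M' ^ 2) (Eventually.of_forall fun t => ?_)
    rw [Real.norm_eq_abs, abs_pow]
    exact pow_le_pow_left₀ (abs_nonneg _) (hM' t) 2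
  have h3 := hPI φ hφ
  rw [← ofReal_variance h2, hder, ← ofReal_integral_eq_lintegral_ofReal hgi
    (Eventually.of_forall fun t => sq_nonneg _), ← ENNReal.ofReal_mul hK.le,
    ENNReal.ofReal_le_ofReal_iff (mul_nonneg hK.le (integral_nonneg fun t => sq_nonneg _)),
    variance_eq_sub h2] at h3
  exact h3

theorem clip_le {c x y : ℝ} (hx : |x| ≤ c) : |x - max (-c) (min y c)| ≤ |x - y| := by
  obtain ⟨h1, h2⟩ := abs_le.1 hx
  rcases le_total y c with h3 | h3
  · rw [min_eq_left h3]
    rcases le_total (-c) y with h4 | h4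
    · rw [max_eq_right h4]
    · rw [max_eq_left h4, abs_of_nonneg (by linarith), abs_of_nonneg (by linarith)]
      linarith
  · rw [min_eq_right h3, max_eq_right (by linarith), abs_of_nonpos (by linarith),
      abs_of_nonpos (by linarith)]
    linarith

theorem clip_abs {c : ℝ} (hc : 0 ≤ c) (y : ℝ) : |max (-c) (min y c)| ≤ c := by
  rw [abs_le]
  exact ⟨le_max_left _ _, max_le (by linarith) (min_le_right _ _)⟩

theorem clip_abs' {c : ℝ} (hc : 0 ≤ c) (y : ℝ) : |max (-c) (min y c)| ≤ |y| := by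
  have := clip_le (c := c) (x := 0) (y := y) (by rw [abs_zero]; exact hc)
  rw [zero_sub, abs_neg, zero_sub, abs_neg] at this
  exact this

theorem t_ONE : S_ONE := by
  intro w K h hK hPI ψ hψ ⟨B, hB⟩
  obtain ⟨W, hW0, hW⟩ := bdw h
  have := nu_prob h
  have hB0 : 0 ≤ B := (abs_nonneg _).trans (hB 0)
  obtain ⟨u, hu⟩ : ∃ u : ℝ → ℝ, u = fun s => w s * ψ (Fc w s) := ⟨_, rfl⟩
  have hψF : Measurable fun s => ψ (Fc w s) := hψ.comp (fc_cont h).measurable
  have hum : AEStronglyMeasurable u volume := by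
    rw [hu]
    exact h.int.aestronglyMeasurable.mul hψF.aestronglyMeasurable
  have hui : Integrable u := by
    refine (h.int.const_mul B).mono' hum (Eventually.of_forall fun s => ?_)
    rw [hu, Real.norm_eq_abs, abs_mul, abs_of_nonneg (h.nonneg s), mul_comm]
    exact mul_le_mul_of_nonneg_right (hB _) (h.nonneg s)
  obtain ⟨c, hc⟩ : ∃ c : ℝ, c = W * B := ⟨_, rfl⟩
  have hc0 : 0 ≤ c := by rw [hc]; positivity
  have hub : ∀ s, |u s| ≤ c := by
    intro s
    rw [hu, hc, abs_mul, abs_of_nonneg (h.nonneg s)]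
    exact mul_le_mul (hW s) (hB _) (abs_nonneg _) hW0.le
  obtain ⟨Ψ, hΨ⟩ : ∃ Ψ : ℝ → ℝ, Ψ = fun x => ∫ t in (0 : ℝ)..x, ψ t := ⟨_, rfl⟩
  have hΨb : ∀ x, 0 ≤ x → x ≤ 1 → |Ψ x| ≤ B := by
    intro x hx0 hx1
    have h1 := intervalIntegral.norm_integral_le_of_norm_le_const (f := ψ) (a := 0) (b := x)
      (C := B) (fun t _ => by rw [Real.norm_eq_abs]; exact hB t)
    rw [sub_zero, abs_of_nonneg hx0, Real.norm_eq_abs] at h1
    rw [hΨ]
    exact h1.trans (by nlinarith)
  have hψi : ∀ a b, IntervalIntegrable ψ volume a b := by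
    intro a b
    refine (intervalIntegrable_const (c := B)).mono_fun hψ.aestronglyMeasurable
      (Eventually.of_forall fun t => ?_)
    show |ψ t| ≤ |B|
    exact (hB t).trans (le_abs_self B)
  have hΨc : Continuous Ψ := by
    rw [hΨ]
    exact intervalIntegral.continuous_primitive hψi 0
  obtain ⟨φ, hφ⟩ : ∃ φ : ℝ → ℝ, φ = fun t => Ψ (Fc w t) := ⟨_, rfl⟩
  have hφb : ∀ t, |φ t| ≤ B := fun t => by
    rw [hφ]
    exact hΨb _ (fc_nonneg h t) (fc_le_one h t)
  have hφc : Continuous φ := by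
    rw [hφ]
    exact hΨc.comp (fc_cont h)
  have hφI : ∀ t, φ t = ∫ s in Iic t, u s := by
    intro t
    rw [hφ, hΨ, hu]
    exact (cov h hψ t).symm
  -- the main estimate
  have hmain : ∀ ε : ℝ, 0 < ε → ε ≤ 1 → ∫ t, φ t ^ 2 ∂(nu w) - (∫ t, φ t ∂(nu w)) ^ 2 ≤
      K * ∫ t, u t ^ 2 ∂(nu w) + ε * (2 * (2 * B + 1) + K * (W * (2 * c))) := by
    intro ε hε hε1
    obtain ⟨g₀, -, hg₀, hg₀c, hg₀i⟩ := hui.exists_hasCompactSupport_integral_sub_le hε
    obtain ⟨g, hg⟩ : ∃ g : ℝ → ℝ, g = fun s => max (-c) (min (g₀ s) c) := ⟨_, rfl⟩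
    have hgc : Continuous g := by
      rw [hg]
      exact continuous_const.max (hg₀c.min continuous_const)
    have hgb : ∀ s, |g s| ≤ c := fun s => by rw [hg]; exact clip_abs hc0 _
    have hgi : Integrable g := by
      refine hg₀i.mono hgc.aestronglyMeasurable (Eventually.of_forall fun s => ?_)
      rw [hg, Real.norm_eq_abs, Real.norm_eq_abs]
      exact clip_abs' hc0 _
    have hdi : Integrable fun s => |u s - g s| := (hui.sub hgi).abs
    have hug : ∫ s, |u s - g s| ≤ ε := by
      refine le_trans (integral_mono hdi (hui.sub hg₀i).norm fun s => ?_) hg₀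
      rw [hg]
      exact clip_le (hub s)
    obtain ⟨φ', hφ'⟩ : ∃ φ' : ℝ → ℝ, φ' = fun t => (∫ s in Iic 0, g s) + ∫ s in (0 : ℝ)..t, g s :=
      ⟨_, rfl⟩
    have hφ'I : ∀ t, φ' t = ∫ s in Iic t, g s := by
      intro t
      rw [hφ']
      have := intervalIntegral.integral_Iic_sub_Iic (a := 0) (b := t) (f := g) (μ := volume)
        hgi.integrableOn hgi.integrableOn
      linarith
    have hd : ∀ t, HasDerivAt φ' (g t) t := by
      intro t
      rw [hφ']
      exact (hgc.integral_hasStrictDerivAt 0 t).hasDerivAt.const_add _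
    have hclose : ∀ t, |φ t - φ' t| ≤ ε := by
      intro t
      rw [hφI, hφ'I, ← integral_sub hui.integrableOn hgi.integrableOn]
      refine (abs_integral_le_integral_abs).trans (le_trans ?_ hug)
      exact setIntegral_le_integral hdi (Eventually.of_forall fun s => abs_nonneg _)
    have hφ'b : ∀ t, |φ' t| ≤ B + ε := by
      intro t
      have h1 := hclose t
      have h2 := hφb t
      rw [abs_le] at h1 h2 ⊢
      constructor <;> linarith
    have hφ'c : Continuous φ' := continuous_iff_continuousAt.2 fun t => (hd t).continuousAt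
    have hkey := pi_int h hK hPI hd hgc hφ'b hgb
    have i1 : Integrable (fun t => φ t ^ 2) (nu w) := by
      refine Integrable.of_bound (by fun_prop) (B ^ 2) (Eventually.of_forall fun t => ?_)
      rw [Real.norm_eq_abs, abs_pow]
      exact pow_le_pow_left₀ (abs_nonneg _) (hφb t) 2
    have i2 : Integrable (fun t => φ' t ^ 2) (nu w) := by
      refine Integrable.of_bound (by fun_prop) ((B + ε) ^ 2) (Eventually.of_forall fun t => ?_)
      rw [Real.norm_eq_abs, abs_pow]
      exact pow_le_pow_left₀ (abs_nonneg _) (hφ'b t) 2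
    have i3 : Integrable φ (nu w) :=
      Integrable.of_bound (by fun_prop) B (Eventually.of_forall fun t => hφb t)
    have i4 : Integrable φ' (nu w) :=
      Integrable.of_bound (by fun_prop) (B + ε) (Eventually.of_forall fun t => hφ'b t)
    have e1 : ∫ t, φ t ^ 2 ∂(nu w) ≤ ∫ t, φ' t ^ 2 ∂(nu w) + ε * (2 * B + 1) := by
      have h1 : ∫ t, φ t ^ 2 ∂(nu w) ≤ ∫ t, (φ' t ^ 2 + ε * (2 * B + 1)) ∂(nu w) := by
        refine integral_mono i1 (i2.add (integrable_const _)) fun t => ?_
        have h1 := abs_le.1 (hclose t)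
        have h2 := abs_le.1 (hφb t)
        have h3 := abs_le.1 (hφ'b t)
        show φ t ^ 2 ≤ φ' t ^ 2 + ε * (2 * B + 1)
        have h4 : |φ t - φ' t| * |φ t + φ' t| ≤ ε * (2 * B + 1) := by
          refine mul_le_mul (hclose t) ?_ (abs_nonneg _) hε.le
          rw [abs_le]
          constructor <;> linarith
        rw [← abs_mul] at h4
        have h5 := le_trans (le_abs_self _) h4
        nlinarith
      rw [integral_add i2 (integrable_const _), integral_const] at h1
      simpa using h1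
    have e2 : (∫ t, φ' t ∂(nu w)) ^ 2 ≤ (∫ t, φ t ∂(nu w)) ^ 2 + ε * (2 * B + 1) := by
      have h1 : |(∫ t, φ' t ∂(nu w)) - ∫ t, φ t ∂(nu w)| ≤ ε := by
        rw [← integral_sub i4 i3]
        refine (abs_integral_le_integral_abs).trans ?_
        have h2 : ∫ t, |φ' t - φ t| ∂(nu w) ≤ ∫ _t, ε ∂(nu w) := by
          refine integral_mono (i4.sub i3).abs (integrable_const _) fun t => ?_
          show |φ' t - φ t| ≤ ε
          rw [abs_sub_comm]
          exact hclose t
        simpa using h2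
      have h2 : |∫ t, φ t ∂(nu w)| ≤ B := by
        refine (abs_integral_le_integral_abs).trans ?_
        have h2 : ∫ t, |φ t| ∂(nu w) ≤ ∫ _t, B ∂(nu w) :=
          integral_mono i3.abs (integrable_const _) fun t => hφb t
        simpa using h2
      have h4 : |(∫ t, φ' t ∂(nu w)) - ∫ t, φ t ∂(nu w)| *
          |(∫ t, φ' t ∂(nu w)) + ∫ t, φ t ∂(nu w)| ≤ ε * (2 * B + 1) := by
        refine mul_le_mul h1 ?_ (abs_nonneg _) hε.le
        rw [abs_le] at h1 h2 ⊢
        constructor <;> linarith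
      rw [← abs_mul] at h4
      have h5 := le_trans (le_abs_self _) h4
      nlinarith
    have e3 : ∫ t, g t ^ 2 ∂(nu w) ≤ ∫ t, u t ^ 2 ∂(nu w) + ε * (W * (2 * c)) := by
      rw [nu_dens h, nu_dens h]
      have i5 : Integrable fun t => w t * u t ^ 2 := by
        refine (h.int.const_mul (c ^ 2)).mono' (h.int.aestronglyMeasurable.mul (hum.pow 2))
          (Eventually.of_forall fun t => ?_)
        rw [Real.norm_eq_abs, abs_mul, abs_of_nonneg (h.nonneg t), abs_pow, mul_comm]
        exact mul_le_mul_of_nonneg_right (pow_le_pow_left₀ (abs_nonneg _) (hub t) 2) (h.nonneg t)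
      have i6 : Integrable fun t => w t * g t ^ 2 := by
        refine (h.int.const_mul (c ^ 2)).mono'
          (h.int.aestronglyMeasurable.mul (hgc.pow 2).aestronglyMeasurable)
          (Eventually.of_forall fun t => ?_)
        rw [Real.norm_eq_abs, abs_mul, abs_of_nonneg (h.nonneg t), abs_pow, mul_comm]
        exact mul_le_mul_of_nonneg_right (pow_le_pow_left₀ (abs_nonneg _) (hgb t) 2) (h.nonneg t)
      have h1 : ∫ t, w t * g t ^ 2 ≤ ∫ t, (w t * u t ^ 2 + W * (2 * c) * |u t - g t|) := by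
        refine integral_mono i6 (i5.add (hdi.const_mul _)) fun t => ?_
        show w t * g t ^ 2 ≤ w t * u t ^ 2 + W * (2 * c) * |u t - g t|
        have h2 := abs_le.1 (hub t)
        have h3 := abs_le.1 (hgb t)
        have h4 : |u t + g t| ≤ 2 * c := by
          rw [abs_le]
          constructor <;> linarith
        have h5 : g t ^ 2 - u t ^ 2 ≤ 2 * c * |u t - g t| := by
          have h6 : |(u t + g t) * (u t - g t)| ≤ 2 * c * |u t - g t| := by
            rw [abs_mul]
            exact mul_le_mul_of_nonneg_right h4 (abs_nonneg _)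
          have h7 := neg_abs_le ((u t + g t) * (u t - g t))
          nlinarith
        have h6 : w t * (g t ^ 2 - u t ^ 2) ≤ W * (2 * c * |u t - g t|) := by
          refine (mul_le_mul_of_nonneg_left h5 (h.nonneg t)).trans ?_
          exact mul_le_mul_of_nonneg_right (hW t) (by positivity)
        linarith
      rw [integral_add i5 (hdi.const_mul _), integral_const_mul] at h1
      have h2 : W * (2 * c) * ∫ t, |u t - g t| ≤ W * (2 * c) * ε :=
        mul_le_mul_of_nonneg_left hug (by positivity)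
      linarith
    have e4 := mul_le_mul_of_nonneg_left e3 hK.le
    nlinarith
  have hfin : ∫ t, φ t ^ 2 ∂(nu w) - (∫ t, φ t ∂(nu w)) ^ 2 ≤ K * ∫ t, u t ^ 2 ∂(nu w) := by
    obtain ⟨C, hC⟩ : ∃ C : ℝ, C = 2 * (2 * B + 1) + K * (W * (2 * c)) := ⟨_, rfl⟩
    have hC0 : 0 < C := by rw [hC]; positivity
    refine le_of_forall_pos_le_add fun δ hδ => ?_
    have h1 := hmain (min 1 (δ / C)) (lt_min one_pos (div_pos hδ hC0)) (min_le_left _ _)
    rw [← hC] at h1
    have h2 : min 1 (δ / C) * C ≤ δ := by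
      calc min 1 (δ / C) * C ≤ δ / C * C := mul_le_mul_of_nonneg_right (min_le_right _ _) hC0.le
        _ = δ := div_mul_cancel₀ _ hC0.ne'
    linarith
  -- transport to the unit interval
  have t1 : ∫ t, φ t ^ 2 ∂(nu w) = ∫ x in (0 : ℝ)..1, Ψ x ^ 2 := by
    rw [nu_int h (g := fun t => φ t ^ 2) (hφc.pow 2).aestronglyMeasurable, intervalIntegral.integral_of_le zero_le_one,
      integral_Ioc_eq_integral_Ioo]
    refine setIntegral_congr_fun measurableSet_Ioo fun x hx => ?_
    simp only [hφ, fc_qt h hx]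
  have t2 : ∫ t, φ t ∂(nu w) = ∫ x in (0 : ℝ)..1, Ψ x := by
    rw [nu_int h hφc.aestronglyMeasurable, intervalIntegral.integral_of_le zero_le_one,
      integral_Ioc_eq_integral_Ioo]
    refine setIntegral_congr_fun measurableSet_Ioo fun x hx => ?_
    simp only [hφ, fc_qt h hx]
  have t3 : K * ∫ t, u t ^ 2 ∂(nu w) =
      ∫ x in (0 : ℝ)..1, K * w (qt w x) ^ 2 * ψ x ^ 2 := by
    rw [nu_int h (g := fun t => u t ^ 2) ((hum.pow 2).mono_ac nu_ac), ← integral_const_mul,
      intervalIntegral.integral_of_le zero_le_one, integral_Ioc_eq_integral_Ioo]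
    refine setIntegral_congr_fun measurableSet_Ioo fun x hx => ?_
    simp only [hu, fc_qt h hx]
    ring
  rw [t1, t2, t3, hΨ] at hfin
  exact hfin

end Pool.Agent.J4H64.OC
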