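import Pool.Agent.J4H64.OC.One

/-!
# The conditioning event has positive probability (project OC, job POS)
-/

set_option autoImplicit false

namespace Pool.Agent.J4H64.OC

open MeasureTheory Set Filter Topology ProbabilityTheory
open Pool.Agent.J4H58.OC Pool.Agent.J4H47.OC
open scoped ENNReal

variable {w : ℝ → ℝ}

theorem nu_slab (h : LD w) {a b : ℝ} (ha : 0 ≤ a) (hb : b ≤ 1) (hab : a < b) :
    nu w {s | Fc w s ∈ Ioo a b} ≠ 0 := by
  have hm : MeasurableSet {s | Fc w s ∈ Ioo a b} :=
    (isOpen_Ioo.preimage (fc_cont h)).measurableSet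
  rw [← qt_map h, Measure.map_apply_of_aemeasurable (qt_aem h) hm,
    Measure.restrict_apply₀ ((qt_aem h).nullMeasurable hm)]
  have h1 : Ioo a b ⊆ qt w ⁻¹' {s | Fc w s ∈ Ioo a b} ∩ Ioo 0 1 := by
    intro x hx
    have hx' : x ∈ Ioo (0 : ℝ) 1 := ⟨ha.trans_lt hx.1, hx.2.trans_le hb⟩
    refine ⟨?_, hx'⟩
    show Fc w (qt w x) ∈ Ioo a b
    rw [fc_qt h hx']
    exact hx
  have h2 := measure_mono (μ := volume) h1
  intro h0
  rw [h0, Real.volume_Ioo, nonpos_iff_eq_zero, ENNReal.ofReal_eq_zero] at h2
  linarith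

open Classical in
theorem t_POS : S_POS := by
  intro w n R h hanti htrans
  have := nu_prob h
  obtain ⟨rk, hrk⟩ : ∃ rk : Fin n → ℕ, rk = fun i =>
      (Finset.univ.filter fun j => R j i ∧ j ≠ i).card := ⟨_, rfl⟩
  have hlt : ∀ i j, R i j → i ≠ j → rk i < rk j := by
    intro i j hij hne
    rw [hrk]
    refine Finset.card_lt_card (Finset.ssubset_iff_of_subset ?_ |>.2 ⟨i, ?_, ?_⟩)
    · intro k hk
      simp only [Finset.mem_filter, Finset.mem_univ, true_and] at hk ⊢
      refine ⟨htrans _ _ _ hk.1 hij, ?_⟩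
      rintro rfl
      exact hne (hanti _ _ hij hk.1)
    · simp [hij, hne]
    · simp
  have hn : ∀ i, rk i < n := by
    intro i
    rw [hrk]
    calc (Finset.univ.filter fun j => R j i ∧ j ≠ i).card
        < (Finset.univ : Finset (Fin n)).card := by
          refine Finset.card_lt_card (Finset.ssubset_iff_of_subset (Finset.subset_univ _) |>.2
            ⟨i, Finset.mem_univ _, by simp⟩)
      _ = n := by simp
  let S : Fin n → Set ℝ := fun i => {s | Fc w s ∈ Ioo ((rk i : ℝ) / n) (((rk i : ℝ) + 1) / n)}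
  have hsub : (univ.pi S) ⊆ ord R := by
    intro x hx i j hij
    by_cases hne : i = j
    · rw [hne]
    · have hi := hx i (mem_univ _)
      have hj := hx j (mem_univ _)
      have hi2 : Fc w (x i) < ((rk i : ℝ) + 1) / n := hi.2
      have hj1 : (rk j : ℝ) / n < Fc w (x j) := hj.1
      have h1 : ((rk i : ℝ) + 1) / n ≤ (rk j : ℝ) / n := by
        refine div_le_div_of_nonneg_right ?_ (Nat.cast_nonneg n)
        have := hlt i j hij hne
        exact_mod_cast this
      by_contra hc
      have := fc_mono h (not_le.1 hc).le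
      linarith
  have hpos : pn w n (univ.pi S) ≠ 0 := by
    unfold pn
    rw [Measure.pi_pi]
    refine Finset.prod_ne_zero_iff.2 fun i _ => nu_slab h ?_ ?_ ?_
    · positivity
    · have hn0 : (0 : ℝ) < n := by
        have := (Nat.zero_le _).trans_lt (hn i)
        exact_mod_cast this
      rw [div_le_one hn0]
      have := hn i
      exact_mod_cast this
    · have hn0 : (0 : ℝ) < n := by
        have := (Nat.zero_le _).trans_lt (hn i)
        exact_mod_cast this
      exact div_lt_div_of_pos_right (by linarith) hn0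
  intro h0
  exact hpos (measure_mono_null hsub h0)

end Pool.Agent.J4H64.OC
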